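import Pool.Agent.Q198.BS5

set_option autoImplicit false

/-!
MP_a61181_an: there is a real Banach space `X` with `3/16 ≤ wbs_1(B_X) ≤ 1`, so
`wbs_1(B_X)` is neither `0` nor `2`.
-/

namespace Pool.Agent.Results.MP_a61181_an.WbsOneBetween

open Pool.Agent.Q198.BSD

theorem result : ∃ (X : Type) (_ : NormedAddCommGroup X) (_ : NormedSpace ℝ X), CompleteSpace X ∧
    3 / 16 ≤ wbsOne (Metric.closedBall (0 : X) 1) ∧ wbsOne (Metric.closedBall (0 : X) 1) ≤ 1 ∧
    wbsOne (Metric.closedBall (0 : X) 1) ≠ 0 ∧ wbsOne (Metric.closedBall (0 : X) 1) ≠ 2 :=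
  ⟨Pool.Agent.Q198.BS.X, inferInstance, inferInstance, inferInstance,
    Pool.Agent.Q198.BS.main.1, Pool.Agent.Q198.BS.main.2,
    fun h => by have := Pool.Agent.Q198.BS.main.1; rw [h] at this; norm_num at this,
    fun h => by have := Pool.Agent.Q198.BS.main.2; rw [h] at this; norm_num at this⟩

end Pool.Agent.Results.MP_a61181_an.WbsOneBetween
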